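import Mathlib
import Pool.Agent.Lib.MP_9abcb7_co.Transfer
import Pool.Agent.Lib.MP_9abcb7_co.Example

set_option autoImplicit false

/-!
The maximum min-var-degree over unsatisfiable hitting clause-sets of deficiency 45 is smaller than
the maximum `M(45)` over minimally unsatisfiable clause-sets of deficiency 45.
-/

namespace Pool.Agent.Results.MP_9abcb7_co.Deficiency45

open Pool.Agent.MP_9abcb7_co

/-- (1) Some minimally unsatisfiable clause-set of deficiency 45 has min-var-degree 50.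
(2) Every unsatisfiable hitting clause-set of deficiency 45 with at least one variable has
min-var-degree at most 49.
(3) Hence it is not true that for every `k ≥ 1` some unsatisfiable hitting clause-set `F` with
`δ(F) = k` and `n(F) ≥ 1` has `μ(F) = M(k)`, where `M(k)` is the greatest `μ(G)` over all minimally
unsatisfiable `G` with `δ(G) = k` and `n(G) ≥ 1`. -/
theorem result :
    (∃ G : Finset (Finset ℤ), MinUnsat G ∧ deficiency G = 45 ∧ 1 ≤ (vars G).card ∧
      minVarDeg G = 50) ∧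
    (∀ F : Finset (Finset ℤ), UnsatHitting F → deficiency F = 45 → 1 ≤ (vars F).card →
      minVarDeg F ≤ 49) ∧
    ¬ (∀ k : ℕ, 1 ≤ k → ∃ F : Finset (Finset ℤ), UnsatHitting F ∧ deficiency F = k ∧
      1 ≤ (vars F).card ∧ IsGreatest (musDegrees k) (minVarDeg F)) := by
  have h1 : MinUnsat Lib.MP_9abcb7_co.G ∧ deficiency Lib.MP_9abcb7_co.G = 45 ∧
      1 ≤ (vars Lib.MP_9abcb7_co.G).card ∧ minVarDeg Lib.MP_9abcb7_co.G = 50 :=
    ⟨Lib.MP_9abcb7_co.G_minUnsat, Lib.MP_9abcb7_co.G_deficiency, by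
      rw [Lib.MP_9abcb7_co.G_vars]; simp, Lib.MP_9abcb7_co.G_mu⟩
  have h2 : ∀ F : Finset (Finset ℤ), UnsatHitting F → deficiency F = 45 →
      1 ≤ (vars F).card → minVarDeg F ≤ 49 :=
    fun F hF hd _ => Lib.MP_9abcb7_co.hitting_bound hF hd
  refine ⟨⟨_, h1⟩, h2, ?_⟩
  intro hall
  obtain ⟨F, hF, hd, hn, hg⟩ := hall 45 (by norm_num)
  have h3 := h2 F hF (by simpa using hd) hn
  have h4 : (50 : ℕ) ∈ musDegrees 45 :=
    ⟨_, h1.1, by simpa using h1.2.1, h1.2.2.1, h1.2.2.2⟩
  have := hg.2 h4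
  omega

end Pool.Agent.Results.MP_9abcb7_co.Deficiency45
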